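import Mathlib

set_option autoImplicit false

/-!
# Splitting of primes in imaginary quadratic fields, by discriminants
-/

namespace Pool.Agent.TH988.SP

open Finset

/-- negative fundamental discriminants, i.e. discriminants of imaginary quadratic fields -/
def NegFund (d : ℤ) : Prop :=
  d < 0 ∧ ((d % 4 = 1 ∧ Squarefree d) ∨
    ∃ m : ℤ, d = 4 * m ∧ (m % 4 = 2 ∨ m % 4 = 3) ∧ Squarefree m)

/-- the prime `p` splits in the quadratic field of discriminant `d` -/
def Splits (p : ℕ) (d : ℤ) : Prop := ¬ (p : ℤ) ∣ d ∧ ∃ x : ℤ, 4 * (p : ℤ) ∣ x ^ 2 - d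

/-- the squarefree number of a discriminant -/
def mm (d : ℤ) : ℕ := if d % 4 = 1 then d.natAbs else d.natAbs / 4

/-- the discriminant of a squarefree number -/
def dd (m : ℕ) : ℤ := if m % 4 = 3 then -(m : ℤ) else -(4 * (m : ℤ))

lemma mm_spec {d : ℤ} (hd : NegFund d) :
    Squarefree (mm d) ∧ 1 ≤ mm d ∧ mm d ≤ d.natAbs ∧ dd (mm d) = d ∧
      (d = -(mm d : ℤ) ∨ d = 4 * (-(mm d : ℤ))) := by
  obtain ⟨h0, h⟩ := hd
  rcases h with ⟨h1, h2⟩ | ⟨m, h1, h2, h3⟩
  · have e : mm d = d.natAbs := by unfold mm; rw [if_pos h1]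
    have e2 : (mm d : ℤ) = -d := by rw [e]; omega
    refine ⟨by rw [e]; exact Int.squarefree_natAbs.2 h2, by omega, by omega, ?_, ?_⟩
    · unfold dd
      rw [if_pos (by omega), e2]
      ring
    · left; rw [e2]; ring
  · have h4 : ¬ d % 4 = 1 := by omega
    have e : mm d = m.natAbs := by
      unfold mm; rw [if_neg h4]
      omega
    have e2 : (mm d : ℤ) = -m := by rw [e]; omega
    refine ⟨by rw [e]; exact Int.squarefree_natAbs.2 h3, by omega, by omega, ?_, ?_⟩
    · unfold dd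
      rw [if_neg (by omega), e2, h1]
      ring
    · right; rw [e2, h1]; ring

lemma jac_disc {d : ℤ} (hd : NegFund d) {p : ℕ} (hp : p.Prime) (hp2 : p ≠ 2) :
    jacobiSym d p = jacobiSym (-(mm d : ℤ)) p := by
  rcases (mm_spec hd).2.2.2.2 with h | h
  · exact congrArg (fun z => jacobiSym z p) h
  · have e : jacobiSym d p = jacobiSym (4 * (-(mm d : ℤ))) p :=
      congrArg (fun z => jacobiSym z p) h
    rw [e, jacobiSym.mul_left, jacobiSym.at_four (hp.odd_of_ne_two hp2), one_mul]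

lemma mod4 {d : ℤ} (hd : NegFund d) : d % 4 = 0 ∨ d % 4 = 1 := by
  rcases hd.2 with ⟨h1, _⟩ | ⟨m, h1, _, _⟩
  · right; exact h1
  · left; omega

/-- for odd primes: split means that the Jacobi symbol is one -/
lemma splits_iff {d : ℤ} (hd : NegFund d) {p : ℕ} (hp : p.Prime) (hp2 : p ≠ 2) :
    Splits p d ↔ jacobiSym d p = 1 := by
  haveI : Fact p.Prime := ⟨hp⟩
  rw [← jacobiSym.legendreSym.to_jacobiSym]
  constructor
  · rintro ⟨h1, x, hx⟩
    have hpd : ((d : ℤ) : ZMod p) ≠ 0 := by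
      rw [Ne, ZMod.intCast_zmod_eq_zero_iff_dvd]
      exact h1
    rw [legendreSym.eq_one_iff p hpd]
    refine ⟨(x : ZMod p), ?_⟩
    have h2 : (p : ℤ) ∣ x ^ 2 - d := (Dvd.intro_left 4 rfl).trans hx
    have h3 : (((x ^ 2 - d : ℤ)) : ZMod p) = 0 := by
      rw [ZMod.intCast_zmod_eq_zero_iff_dvd]; exact h2
    push_cast at h3
    rw [sub_eq_zero] at h3
    rw [← h3, sq]
  · intro h
    have hpd : ((d : ℤ) : ZMod p) ≠ 0 := by
      intro h0
      rw [(legendreSym.eq_zero_iff p d).2 h0] at h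
      norm_num at h
    refine ⟨fun h0 => hpd ((ZMod.intCast_zmod_eq_zero_iff_dvd d p).2 h0), ?_⟩
    obtain ⟨y, hy⟩ := (legendreSym.eq_one_iff p hpd).1 h
    -- lift y
    obtain ⟨z, hz⟩ : ∃ z : ℤ, (z : ZMod p) = y := ⟨y.val, by simp⟩
    have h2 : (p : ℤ) ∣ z ^ 2 - d := by
      rw [← ZMod.intCast_zmod_eq_zero_iff_dvd]
      push_cast
      rw [hz, hy]
      ring
    have hodd : (p : ℤ) % 2 = 1 := by
      have := Nat.odd_iff.1 (hp.odd_of_ne_two hp2)
      omega
    -- choose the parity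
    have key : ∀ x : ℤ, (p : ℤ) ∣ x ^ 2 - d → x % 2 = d % 2 → 4 * (p : ℤ) ∣ x ^ 2 - d := by
      intro x hx hpar
      have h4 : (4 : ℤ) ∣ x ^ 2 - d := by
        rcases mod4 hd with h | h
        · obtain ⟨w, hw⟩ : ∃ w, x = 2 * w := ⟨x / 2, by omega⟩
          rw [hw]
          have : (2 * w) ^ 2 = 4 * (w ^ 2) := by ring
          rw [this]
          omega
        · obtain ⟨w, hw⟩ : ∃ w, x = 2 * w + 1 := ⟨x / 2, by omega⟩
          rw [hw]
          have : (2 * w + 1) ^ 2 = 4 * (w ^ 2 + w) + 1 := by ring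
          rw [this]
          omega
      have hc : IsCoprime (4 : ℤ) (p : ℤ) := by
        have h5 : Nat.Coprime 4 p := by
          have : Nat.Coprime 2 p := by
            rw [Nat.coprime_primes Nat.prime_two hp]; exact Ne.symm hp2
          exact Nat.Coprime.pow_left 2 this
        exact_mod_cast Nat.isCoprime_iff_coprime.2 h5
      exact hc.mul_dvd h4 hx
    by_cases hpar : z % 2 = d % 2
    · exact ⟨z, key z h2 hpar⟩
    · refine ⟨z + p, key (z + p) ?_ (by omega)⟩
      have e : (z + p) ^ 2 - d = (z ^ 2 - d) + (p : ℤ) * (2 * z + p) := by ring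
      rw [e]
      exact dvd_add h2 (Dvd.intro _ rfl)

/-- the number of odd primes below `t` dividing `m` -/
lemma ramified_le (t m : ℕ) (hm : 1 ≤ m) (X : ℝ) (hX : (m : ℝ) ≤ X) :
    ((((range t).filter (fun p => p.Prime ∧ p ≠ 2)).filter
      (fun p => ((jacobiSym (-(m : ℤ)) p : ℤ) : ℝ) = 0)).card : ℝ) ≤ 2 * Real.log X := by
  set S := ((range t).filter (fun p => p.Prime ∧ p ≠ 2)).filter
      (fun p => ((jacobiSym (-(m : ℤ)) p : ℤ) : ℝ) = 0) with hS
  have hsub : S ⊆ m.primeFactors := by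
    intro p hp
    rw [hS, mem_filter, mem_filter] at hp
    obtain ⟨⟨_, h1, _⟩, h2⟩ := hp
    have h3 : jacobiSym (-(m : ℤ)) p = 0 := by exact_mod_cast h2
    rw [jacobiSym.eq_zero_iff] at h3
    have h4 : p ∣ m := by
      by_contra hcon
      apply h3.2
      have e : Int.gcd (-(m : ℤ)) (p : ℤ) = Nat.gcd m p := by simp [Int.gcd]
      rw [e]
      exact (Nat.Coprime.symm ((Nat.Prime.coprime_iff_not_dvd h1).2 hcon))
    exact Nat.mem_primeFactors.2 ⟨h1, h4, by omega⟩
  have h1 : 2 ^ S.card ≤ m := by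
    calc 2 ^ S.card ≤ 2 ^ m.primeFactors.card :=
          Nat.pow_le_pow_right (by norm_num) (card_le_card hsub)
      _ ≤ ∏ p ∈ m.primeFactors, p := by
          apply Finset.pow_card_le_prod
          intro p hp
          exact (Nat.prime_of_mem_primeFactors hp).two_le
      _ ≤ m := Nat.le_of_dvd (by omega) (Nat.prod_primeFactors_dvd m)
  have h2 : (2 : ℝ) ^ S.card ≤ X := le_trans (by exact_mod_cast h1) hX
  have h3 : (S.card : ℝ) * Real.log 2 ≤ Real.log X := by
    have := Real.log_le_log (by positivity) h2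
    rwa [Real.log_pow] at this
  have h4 : (0.5 : ℝ) ≤ Real.log 2 := by have := Real.log_two_gt_d9; linarith
  have h5 : (0 : ℝ) ≤ S.card := by positivity
  nlinarith

end Pool.Agent.TH988.SP
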