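import Pool.Agent.TH988.SP.Core
import Pool.Agent.TH988.SP.Disc

set_option autoImplicit false

/-!
# The count of biased discriminants for one prime bound
-/

namespace Pool.Agent.TH988.SP

open Finset Filter Pool.Agent.H306R2.RZ

/-- the number of primes below `t` -/
def pr0 (t : ℕ) : ℕ := ((range t).filter Nat.Prime).card

/-- the odd primes below `t` -/
def opr (t : ℕ) : Finset ℕ := (range t).filter (fun p => p.Prime ∧ p ≠ 2)

lemma opr_card_le (t : ℕ) : (opr t).card ≤ pr0 t := by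
  unfold opr pr0
  apply card_le_card
  intro p hp
  rw [mem_filter] at hp ⊢
  exact ⟨hp.1, hp.2.1⟩

lemma pr0_le (t : ℕ) : pr0 t ≤ (opr t).card + 1 := by
  unfold opr pr0
  have : (range t).filter Nat.Prime ⊆ insert 2 ((range t).filter (fun p => p.Prime ∧ p ≠ 2)) := by
    intro p hp
    rw [mem_filter] at hp
    rw [mem_insert, mem_filter]
    by_cases h : p = 2
    · left; exact h
    · right; exact ⟨hp.1, hp.2, h⟩
  exact (card_le_card this).trans (card_insert_le _ _)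

lemma pr0_pi (n : ℕ) : pr0 (n + 1) = Nat.primeCounting n := by
  unfold pr0 Nat.primeCounting Nat.primeCounting'
  rw [Nat.count_eq_card_filter_range]

lemma pr0_ge (η : ℝ) (hη : 0 < η) : ∀ᶠ t : ℕ in atTop, (t : ℝ) ^ (1 - η) ≤ pr0 t := by
  have h1 : ∀ᶠ x : ℝ in atTop, Real.log x ≤ (1 / 8) * x ^ η := by
    filter_upwards [(isLittleO_log_rpow_atTop hη).bound (show (0 : ℝ) < 1 / 8 by norm_num),
      eventually_ge_atTop (1 : ℝ)] with x hx hx1
    rw [Real.norm_eq_abs, Real.norm_eq_abs, abs_of_nonneg (Real.log_nonneg hx1),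
      abs_of_nonneg (by positivity)] at hx
    exact hx
  have h2 : ∀ᶠ x : ℝ in atTop, Real.log x ≤ (1 / 16) * x := by
    filter_upwards [Real.isLittleO_log_id_atTop.bound (show (0 : ℝ) < 1 / 16 by norm_num),
      eventually_ge_atTop (1 : ℝ)] with x hx hx1
    rw [Real.norm_eq_abs, Real.norm_eq_abs, abs_of_nonneg (Real.log_nonneg hx1), id,
      abs_of_nonneg (by positivity)] at hx
    exact hx
  have h1' := tendsto_natCast_atTop_atTop (R := ℝ) |>.eventually h1
  have h2' := tendsto_natCast_atTop_atTop (R := ℝ) |>.eventually h2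
  filter_upwards [h1', h2', eventually_ge_atTop 6] with t ht1 ht2 ht6
  obtain ⟨n, rfl⟩ : ∃ n, t = n + 1 := ⟨t - 1, by omega⟩
  have hn5 : (5 : ℝ) ≤ n := by exact_mod_cast (by omega : 5 ≤ n)
  rw [pr0_pi]
  refine le_trans ?_ (Chebyshev.pi_ge n)
  have hln : 0 < Real.log n := Real.log_pos (by linarith)
  have hle : Real.log n ≤ Real.log ((n + 1 : ℕ) : ℝ) :=
    Real.log_le_log (by linarith) (by push_cast; linarith)
  rw [le_div_iff₀ hln]
  have hl2 : (0.69 : ℝ) ≤ Real.log 2 := by have := Real.log_two_gt_d9; linarith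
  have e1 : ((n + 1 : ℕ) : ℝ) ^ (1 - η) * Real.log n ≤ (1 / 8) * ((n + 1 : ℕ) : ℝ) := by
    calc ((n + 1 : ℕ) : ℝ) ^ (1 - η) * Real.log n
        ≤ ((n + 1 : ℕ) : ℝ) ^ (1 - η) * ((1 / 8) * ((n + 1 : ℕ) : ℝ) ^ η) := by
          apply mul_le_mul_of_nonneg_left (hle.trans ht1) (by positivity)
      _ = (1 / 8) * (((n + 1 : ℕ) : ℝ) ^ (1 - η) * ((n + 1 : ℕ) : ℝ) ^ η) := by ring
      _ = (1 / 8) * ((n + 1 : ℕ) : ℝ) := by
          rw [← Real.rpow_add (by positivity)]
          norm_num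
  refine e1.trans ?_
  push_cast at ht2 ⊢
  nlinarith

lemma log_tendsto_div (A : ℝ) (hA : 0 < A) (c : ℝ) : ∀ᶠ L : ℝ in atTop, c ≤ Real.log (L / A) :=
  (Real.tendsto_log_atTop.comp (tendsto_id.atTop_div_const hA)).eventually_ge_atTop c

lemma rpow_ev (s c : ℝ) (hs : 0 < s) : ∀ᶠ L : ℝ in atTop, c ≤ L ^ s :=
  (tendsto_rpow_atTop hs).eventually_ge_atTop c

/-- primes below `t ≥ (L/A)^A` -/
lemma pr0_pow (A η : ℝ) (hA : 1 < A) (hη : 0 < η) (hηA : η < A) :
    ∀ᶠ L : ℝ in atTop, ∀ t : ℕ, (L / A) ^ A ≤ t → L ^ (A - η) ≤ pr0 t := by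
  have hη' : 0 < η / (2 * A) := by positivity
  obtain ⟨t0, ht0⟩ := eventually_atTop.1 (pr0_ge (η / (2 * A)) hη')
  have h1 : ∀ᶠ L : ℝ in atTop, (t0 : ℝ) ≤ (L / A) ^ A := by
    exact ((tendsto_rpow_atTop (by linarith : (0 : ℝ) < A)).comp
      (tendsto_id.atTop_div_const (by linarith : (0 : ℝ) < A))).eventually_ge_atTop (t0 : ℝ)
  filter_upwards [h1, rpow_ev (η / 2) (A ^ (A - η / 2)) (by positivity),
    eventually_ge_atTop (1 : ℝ)] with L hL1 hL2 hL3 t ht
  have h2 : t0 ≤ t := by exact_mod_cast hL1.trans ht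
  refine le_trans ?_ (ht0 t h2)
  have hLA : 0 < L / A := by positivity
  have e1 : (L / A) ^ (A - η / 2) ≤ (t : ℝ) ^ (1 - η / (2 * A)) := by
    have : (L / A) ^ (A - η / 2) = ((L / A) ^ A) ^ (1 - η / (2 * A)) := by
      rw [← Real.rpow_mul hLA.le]
      congr 1
      field_simp
    rw [this]
    apply Real.rpow_le_rpow (by positivity) ht
    have : η / (2 * A) ≤ 1 := by
      rw [div_le_one (by positivity)]
      linarith
    linarith
  refine le_trans ?_ e1
  rw [Real.div_rpow (by linarith) (by linarith), le_div_iff₀ (by positivity)]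
  calc L ^ (A - η) * A ^ (A - η / 2) ≤ L ^ (A - η) * L ^ (η / 2) := by
        apply mul_le_mul_of_nonneg_left hL2 (by positivity)
    _ = L ^ (A - η / 2) := by
        rw [← Real.rpow_add (by linarith)]
        congr 1
        ring

theorem main_count (A η δ ε1 : ℝ) (hA : 1 < A) (hη : 0 < η) (hηA : 2 * η < A - 1)
    (hδ : 0 < δ) (hε1 : 0 < ε1) : ∃ C : ℝ, 0 < C ∧ ∀ᶠ L : ℝ in atTop, ∀ t : ℕ,
      (L / A) ^ A ≤ t → (t : ℝ) ≤ L ^ (A + η) → ∀ S ⊆ sqf ⌊Real.exp L⌋₊,
      (∀ m ∈ S, δ * (pr0 t : ℝ) ≤ |∑ p ∈ opr t, ((jacobiSym (-(m : ℤ)) p : ℤ) : ℝ)|) →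
      (S.card : ℝ) ≤ C * Real.exp (L * (1 + 2 * ε1 - (A - 1 - 2 * η) / (A + η))) *
        L ^ (A - 1 - 2 * η) := by
  obtain ⟨C1, hC1, hLS⟩ := Pool.Agent.H423R2.RZL.HBLSn.HBLS ε1 hε1
  refine ⟨2 * C1, by positivity, ?_⟩
  set g := A - 1 - 2 * η with hg
  have hg0 : 0 < g := by linarith
  filter_upwards [pr0_pow A η hA hη (by linarith), rpow_ev η (4 / δ ^ 2) hη,
    eventually_ge_atTop (3 : ℝ), log_tendsto_div 1 (by norm_num) 1] with L hL1 hL2 hL3 hL4 t ht1 ht2 S hS hSD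
  rw [div_one] at hL4
  have hL0 : 0 < L := by linarith
  have hl0 : 0 < Real.log L := by linarith
  have hX1 : 1 ≤ Real.exp L := Real.one_le_exp hL0.le
  set M : ℕ := ⌊Real.exp L⌋₊ with hM
  have hM1 : 1 ≤ M := Nat.le_floor (by simpa using hX1)
  have hMX : (M : ℝ) ≤ Real.exp L := Nat.floor_le (by positivity)
  set k : ℕ := ⌊L / ((A + η) * Real.log L)⌋₊ with hk
  have hAη : 0 < (A + η) * Real.log L := by positivity
  have hk1 : (k : ℝ) ≤ L / ((A + η) * Real.log L) := Nat.floor_le (by positivity)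
  have hk2 : L / ((A + η) * Real.log L) < k + 1 := Nat.lt_floor_add_one _
  have hkL : (k : ℝ) ≤ L := by
    refine hk1.trans ?_
    rw [div_le_iff₀ hAη]
    have : 1 ≤ (A + η) * Real.log L := by nlinarith
    nlinarith
  have hpr := hL1 t ht1
  have hpr0 : 0 < (pr0 t : ℝ) := lt_of_lt_of_le (by positivity) hpr
  have hP : ∀ p ∈ opr t, p.Prime ∧ p ≠ 2 := by
    intro p hp
    exact (mem_filter.1 hp).2
  have hN : ∀ s ∈ (opr t).powersetCard k, ∏ p ∈ s, p ≤ M := by
    intro s hs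
    obtain ⟨hs1, hs2⟩ := mem_powersetCard.1 hs
    have e1 : ∏ p ∈ s, p ≤ t ^ k := by
      rw [← hs2]
      apply Finset.prod_le_pow_card
      intro p hp
      exact (mem_range.1 (mem_filter.1 (hs1 hp)).1).le
    apply Nat.le_floor
    have e2 : ((∏ p ∈ s, p : ℕ) : ℝ) ≤ (t : ℝ) ^ k := by exact_mod_cast e1
    refine e2.trans ?_
    calc (t : ℝ) ^ k ≤ (L ^ (A + η)) ^ k := by gcongr
      _ = Real.exp (((A + η) * Real.log L) * k) := by
          rw [← Real.rpow_natCast, ← Real.rpow_mul hL0.le, Real.rpow_def_of_pos hL0]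
          congr 1
          ring
      _ ≤ Real.exp L := by
          apply Real.exp_le_exp.2
          rw [le_div_iff₀ hAη] at hk1
          linarith
  have hcard : ((opr t).card : ℝ) ≤ pr0 t := by exact_mod_cast opr_card_le t
  have hDpos : 0 < δ * (pr0 t : ℝ) := by positivity
  -- the basic estimate `4 k / (δ² π) ≤ L^(-g)`
  have hbase : 4 * L ≤ δ ^ 2 * L ^ (1 + η) := by
    have : L ^ (1 + η) = L * L ^ η := by
      rw [Real.rpow_add hL0, Real.rpow_one]
    rw [this]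
    rw [div_le_iff₀ (by positivity)] at hL2
    nlinarith
  have hpr2 : L ^ (1 + η) * L ^ g ≤ pr0 t := by
    rw [← Real.rpow_add hL0]
    have : 1 + η + g = A - η := by rw [hg]; ring
    rw [this]
    exact hpr
  have hLg : 1 ≤ L ^ g := Real.one_le_rpow (by linarith) hg0.le
  have hq : 4 * (k : ℝ) * L ^ g ≤ δ ^ 2 * pr0 t := by
    calc 4 * (k : ℝ) * L ^ g ≤ 4 * L * L ^ g := by gcongr
      _ ≤ δ ^ 2 * L ^ (1 + η) * L ^ g := by gcongr
      _ = δ ^ 2 * (L ^ (1 + η) * L ^ g) := by ring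
      _ ≤ _ := by gcongr
  have hK : 4 * (k : ℝ) * ((opr t).card : ℝ) ≤ (δ * (pr0 t : ℝ)) ^ 2 := by
    have e1 : 4 * (k : ℝ) ≤ δ ^ 2 * pr0 t := by
      refine le_trans ?_ hq
      have : 0 ≤ 4 * (k : ℝ) := by positivity
      nlinarith
    calc 4 * (k : ℝ) * ((opr t).card : ℝ) ≤ (δ ^ 2 * pr0 t) * (pr0 t : ℝ) := by gcongr
      _ = _ := by ring
  have hcb := count_bad (opr t) hP M M k (C1 * ((M : ℝ) * M) ^ ε1 * (M + M)) (by positivity)
    (hLS M M hM1 hM1) hN (δ * (pr0 t : ℝ)) hDpos hK S hS hSD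
  refine hcb.trans ?_
  have hB : C1 * ((M : ℝ) * M) ^ ε1 * (M + M) ≤ 2 * C1 * Real.exp (L * (1 + 2 * ε1)) := by
    have e1 : ((M : ℝ) * M) ^ ε1 ≤ Real.exp (2 * ε1 * L) := by
      calc ((M : ℝ) * M) ^ ε1 ≤ (Real.exp L * Real.exp L) ^ ε1 := by gcongr
        _ = Real.exp (2 * ε1 * L) := by
          rw [← Real.exp_add, ← Real.exp_mul]
          congr 1
          ring
    calc C1 * ((M : ℝ) * M) ^ ε1 * (M + M) ≤ C1 * Real.exp (2 * ε1 * L) * (Real.exp L + Real.exp L) := by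
          gcongr
      _ = 2 * C1 * (Real.exp (2 * ε1 * L) * Real.exp L) := by ring
      _ = _ := by
          rw [← Real.exp_add]
          congr 2
          ring
  have hR : (4 * (k : ℝ) * ((opr t).card : ℝ) / (δ * (pr0 t : ℝ)) ^ 2) ^ k ≤
      Real.exp (-(L * (g / (A + η)))) * L ^ g := by
    have e0 : 4 * (k : ℝ) * ((opr t).card : ℝ) / (δ * (pr0 t : ℝ)) ^ 2 ≤ L ^ (-g) := by
      rw [div_le_iff₀ (by positivity), Real.rpow_neg hL0.le, inv_mul_eq_div,
        le_div_iff₀ (by positivity)]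
      calc 4 * (k : ℝ) * ((opr t).card : ℝ) * L ^ g
          = (4 * (k : ℝ) * L ^ g) * ((opr t).card : ℝ) := by ring
        _ ≤ (δ ^ 2 * pr0 t) * (pr0 t : ℝ) := by gcongr
        _ = _ := by ring
    calc (4 * (k : ℝ) * ((opr t).card : ℝ) / (δ * (pr0 t : ℝ)) ^ 2) ^ k
        ≤ (L ^ (-g)) ^ k := by gcongr
      _ = Real.exp (-(g * Real.log L * k)) := by
          rw [← Real.rpow_natCast, ← Real.rpow_mul hL0.le, Real.rpow_def_of_pos hL0]
          congr 1
          ring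
      _ ≤ Real.exp (-(L * (g / (A + η))) + Real.log L * g) := by
          apply Real.exp_le_exp.2
          have e1 : L / ((A + η) * Real.log L) - 1 ≤ k := by linarith
          have e2 : g * Real.log L * (L / ((A + η) * Real.log L) - 1) ≤ g * Real.log L * k := by
            gcongr
          have e3 : g * Real.log L * (L / ((A + η) * Real.log L) - 1) =
              L * (g / (A + η)) - Real.log L * g := by
            have : A + η ≠ 0 := by positivity
            field_simp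
          linarith
      _ = _ := by
          rw [Real.exp_add, Real.rpow_def_of_pos hL0]
  calc C1 * ((M : ℝ) * M) ^ ε1 * (M + M) *
        (4 * (k : ℝ) * ((opr t).card : ℝ) / (δ * (pr0 t : ℝ)) ^ 2) ^ k
      ≤ (2 * C1 * Real.exp (L * (1 + 2 * ε1))) * (Real.exp (-(L * (g / (A + η)))) * L ^ g) := by
        gcongr
    _ = 2 * C1 * (Real.exp (L * (1 + 2 * ε1)) * Real.exp (-(L * (g / (A + η))))) * L ^ g := by ring
    _ = _ := by
        rw [← Real.exp_add]
        congr 3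
        ring

end Pool.Agent.TH988.SP
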