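import Pool.Agent.TH988.SP.Kraw
import Pool.Agent.H423R2.RZL.HBLS

set_option autoImplicit false

/-!
# Discriminants with biased splitting of the primes of a set, from Heath-Brown's large sieve
-/

namespace Pool.Agent.TH988.SP

open Finset Pool.Agent.H306R2.RZ

/-- products of `k` different members of `P` -/
def prods (P : Finset ℕ) (k : ℕ) : Finset ℕ :=
  (P.powersetCard k).image (fun s => ∏ p ∈ s, p)

lemma prods_inj (P : Finset ℕ) (hP : ∀ p ∈ P, p.Prime) (k : ℕ) :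
    Set.InjOn (fun s : Finset ℕ => ∏ p ∈ s, p) (P.powersetCard k : Set (Finset ℕ)) := by
  intro s hs t ht h
  have hs' := (mem_powersetCard.1 (mem_coe.1 hs)).1
  have ht' := (mem_powersetCard.1 (mem_coe.1 ht)).1
  simp only at h
  rw [← Nat.primeFactors_prod (s := s) (fun p hp => hP p (hs' hp)),
    ← Nat.primeFactors_prod (s := t) (fun p hp => hP p (ht' hp)), h]

lemma jac_prod (a : ℤ) (s : Finset ℕ) (hs : ∀ p ∈ s, p ≠ 0) :
    jacobiSym a (∏ p ∈ s, p) = ∏ p ∈ s, jacobiSym a p := by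
  classical
  induction s using Finset.induction_on with
  | empty => simp
  | insert q t hq ih =>
    rw [Finset.prod_insert hq, Finset.prod_insert hq,
      jacobiSym.mul_right' a (hs q (mem_insert_self _ _))
        (Finset.prod_ne_zero_iff.2 fun p hp => hs p (mem_insert_of_mem hp)),
      ih fun p hp => hs p (mem_insert_of_mem hp)]

lemma sum_prods (P : Finset ℕ) (hP : ∀ p ∈ P, p.Prime) (k : ℕ) (a : ℤ) :
    ∑ n ∈ prods P k, ((jacobiSym a n : ℤ) : ℝ) =
      esum P (fun p => ((jacobiSym a p : ℤ) : ℝ)) k := by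
  unfold prods esum
  rw [Finset.sum_image (prods_inj P hP k)]
  apply Finset.sum_congr rfl
  intro s hs
  have hs' := (mem_powersetCard.1 hs).1
  rw [jac_prod a s fun p hp => (hP p (hs' hp)).ne_zero]
  push_cast
  rfl

lemma prods_sub (P : Finset ℕ) (hP : ∀ p ∈ P, p.Prime ∧ p ≠ 2) (k N : ℕ)
    (hN : ∀ s ∈ P.powersetCard k, ∏ p ∈ s, p ≤ N) : prods P k ⊆ osf N := by
  intro n hn
  unfold prods at hn
  obtain ⟨s, hs, rfl⟩ := mem_image.1 hn
  have hs' := (mem_powersetCard.1 hs).1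
  unfold osf
  rw [mem_filter, mem_Icc]
  refine ⟨⟨?_, hN s hs⟩, ?_, ?_⟩
  · exact Finset.prod_pos fun p hp => (hP p (hs' hp)).1.pos
  · rw [Nat.odd_iff, ← Nat.not_even_iff, even_iff_two_dvd]
    intro h
    obtain ⟨p, hp, h2⟩ := (Nat.prime_two.prime.dvd_finsetProd_iff _).1 h
    exact (hP p (hs' hp)).2 ((Nat.prime_dvd_prime_iff_eq Nat.prime_two (hP p (hs' hp)).1).1 h2).symm
  · apply Finset.squarefree_prod_of_pairwise_isCoprime
    · intro p hp q hq hpq
      rw [Function.onFun, ← Nat.coprime_iff_isRelPrime]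
      exact (Nat.coprime_primes (hP p (hs' hp)).1 (hP q (hs' hq)).1).2 hpq
    · intro p hp
      exact (hP p (hs' hp)).1.prime.squarefree

lemma card_prods (P : Finset ℕ) (hP : ∀ p ∈ P, p.Prime) (k : ℕ) :
    ((prods P k).card : ℝ) ≤ (P.card : ℝ) ^ k / (k.factorial : ℝ) := by
  have h : (prods P k).card ≤ P.card.choose k := by
    unfold prods
    exact Finset.card_image_le.trans (le_of_eq (Finset.card_powersetCard _ _))
  calc ((prods P k).card : ℝ) ≤ (P.card.choose k : ℝ) := by exact_mod_cast h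
    _ ≤ _ := Nat.choose_le_pow_div k P.card

lemma jac_val (a : ℤ) (p : ℕ) : ((jacobiSym a p : ℤ) : ℝ) = 1 ∨ ((jacobiSym a p : ℤ) : ℝ) = -1 ∨
    ((jacobiSym a p : ℤ) : ℝ) = 0 := by
  rcases jacobiSym.trichotomy a p with h | h | h
  · right; right; rw [h]; simp
  · left; rw [h]; simp
  · right; left; rw [h]; simp

theorem count_bad (P : Finset ℕ) (hP : ∀ p ∈ P, p.Prime ∧ p ≠ 2) (M N k : ℕ) (B : ℝ)
    (hB : 0 ≤ B) (hLS : LSB M N B) (hN : ∀ s ∈ P.powersetCard k, ∏ p ∈ s, p ≤ N)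
    (D : ℝ) (hD : 0 < D) (hK : 4 * (k : ℝ) * (P.card : ℝ) ≤ D ^ 2) (S : Finset ℕ)
    (hS : S ⊆ sqf M)
    (hSD : ∀ m ∈ S, D ≤ |∑ p ∈ P, ((jacobiSym (-(m : ℤ)) p : ℤ) : ℝ)|) :
    (S.card : ℝ) ≤ B * (4 * k * P.card / D ^ 2) ^ k := by
  classical
  have hPp : ∀ p ∈ P, p.Prime := fun p hp => (hP p hp).1
  set a : ℕ → ℂ := fun n => if n ∈ prods P k then ((jacobiSym (-1) n : ℤ) : ℂ) else 0 with ha
  have h1 := hLS a
  have hsub := prods_sub P hP k N hN
  -- right-hand side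
  have hr : ∑ n ∈ osf N, ‖a n‖ ^ 2 ≤ (P.card : ℝ) ^ k / (k.factorial : ℝ) := by
    refine le_trans ?_ (card_prods P hPp k)
    have : ∑ n ∈ osf N, ‖a n‖ ^ 2 ≤ ∑ n ∈ osf N, if n ∈ prods P k then (1 : ℝ) else 0 := by
      apply Finset.sum_le_sum
      intro n _
      rw [ha]
      simp only
      split_ifs with h
      · rcases jacobiSym.trichotomy (-1) n with h | h | h <;> rw [h] <;> simp
      · simp
    refine this.trans ?_
    rw [← Finset.sum_filter, Finset.sum_const, nsmul_eq_mul, mul_one]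
    exact_mod_cast Finset.card_le_card (by
      intro n hn; exact (mem_filter.1 hn).2)
  -- left-hand side
  have hl : ∀ m ∈ S, ((D / 2) ^ k / (k.factorial : ℝ)) ^ 2 ≤
      ‖∑ n ∈ osf N, a n * (js m n : ℂ)‖ ^ 2 := by
    intro m hm
    have e : ∑ n ∈ osf N, a n * (js m n : ℂ) =
        ((esum P (fun p => ((jacobiSym (-(m : ℤ)) p : ℤ) : ℝ)) k : ℝ) : ℂ) := by
      rw [← sum_prods P hPp k]
      push_cast
      rw [← Finset.sum_subset hsub]
      · apply Finset.sum_congr rfl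
        intro n hn
        rw [ha]
        simp only
        rw [if_pos hn]
        unfold js
        rw [← neg_one_mul (m : ℤ), jacobiSym.mul_left]
        push_cast
        ring
      · intro n _ hn
        rw [ha]
        simp only
        rw [if_neg hn, zero_mul]
    rw [e, Complex.norm_real, Real.norm_eq_abs]
    have h2 := esum_ge P (fun p => ((jacobiSym (-(m : ℤ)) p : ℤ) : ℝ))
      (fun p _ => jac_val _ p) D hD (hSD m hm) k hK
    gcongr
  have h2 : (S.card : ℝ) * ((D / 2) ^ k / (k.factorial : ℝ)) ^ 2 ≤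
      B * ((P.card : ℝ) ^ k / (k.factorial : ℝ)) := by
    calc (S.card : ℝ) * ((D / 2) ^ k / (k.factorial : ℝ)) ^ 2
        = ∑ m ∈ S, ((D / 2) ^ k / (k.factorial : ℝ)) ^ 2 := by
          rw [Finset.sum_const, nsmul_eq_mul]
      _ ≤ ∑ m ∈ S, ‖∑ n ∈ osf N, a n * (js m n : ℂ)‖ ^ 2 := Finset.sum_le_sum hl
      _ ≤ ∑ m ∈ sqf M, ‖∑ n ∈ osf N, a n * (js m n : ℂ)‖ ^ 2 := by
          apply Finset.sum_le_sum_of_subset_of_nonneg hS
          intro _ _ _; positivity
      _ ≤ B * ∑ n ∈ osf N, ‖a n‖ ^ 2 := h1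
      _ ≤ _ := mul_le_mul_of_nonneg_left hr hB
  have hf : (0 : ℝ) < (k.factorial : ℝ) := by exact_mod_cast Nat.factorial_pos k
  have hfk : (k.factorial : ℝ) ≤ (k : ℝ) ^ k := by exact_mod_cast Nat.factorial_le_pow k
  have hDk : (0 : ℝ) < (D / 2) ^ k := by positivity
  -- solve for the cardinality
  have h3 : (S.card : ℝ) ≤ B * ((P.card : ℝ) ^ k * (k.factorial : ℝ)) / ((D / 2) ^ k) ^ 2 := by
    rw [le_div_iff₀ (by positivity)]
    have e1 : (S.card : ℝ) * ((D / 2) ^ k) ^ 2 =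
        (S.card : ℝ) * ((D / 2) ^ k / (k.factorial : ℝ)) ^ 2 * (k.factorial : ℝ) ^ 2 := by
      field_simp
    have e2 : B * ((P.card : ℝ) ^ k * (k.factorial : ℝ)) =
        B * ((P.card : ℝ) ^ k / (k.factorial : ℝ)) * (k.factorial : ℝ) ^ 2 := by
      field_simp
    rw [e1, e2]
    exact mul_le_mul_of_nonneg_right h2 (by positivity)
  refine h3.trans ?_
  rw [mul_div_assoc]
  apply mul_le_mul_of_nonneg_left _ hB
  have e3 : (4 * (k : ℝ) * P.card / D ^ 2) ^ k =
      (P.card : ℝ) ^ k * (k : ℝ) ^ k / ((D / 2) ^ k) ^ 2 := by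
    rw [← pow_mul, mul_comm k 2, pow_mul, ← mul_pow, ← div_pow]
    congr 1
    field_simp
    ring
  rw [e3]
  gcongr

end Pool.Agent.TH988.SP
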