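import Pool.Agent.TH988.SP.Asym

set_option autoImplicit false

/-!
# Equal distribution of small split and inert primes for almost all discriminants
-/

namespace Pool.Agent.TH988.SP

open Finset Filter Pool.Agent.H306R2.RZ

/-- the bound `(log |d|)^A (log log |d|)^b` -/
noncomputable def bd (A b : ℝ) (d : ℤ) : ℝ :=
  Real.log |(d : ℝ)| ^ A * Real.log (Real.log |(d : ℝ)|) ^ b

/-- the number of all primes below the bound -/
noncomputable def nall (A b : ℝ) (d : ℤ) : ℕ := {p : ℕ | p.Prime ∧ (p : ℝ) < bd A b d}.ncard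

/-- the number of splitting primes below the bound -/
noncomputable def nsplit (A b : ℝ) (d : ℤ) : ℕ :=
  {p : ℕ | p.Prime ∧ (p : ℝ) < bd A b d ∧ Splits p d}.ncard

lemma nall_eq (A b : ℝ) (d : ℤ) : nall A b d = pr0 ⌈bd A b d⌉₊ := by
  unfold nall pr0
  rw [← Set.ncard_coe_finset]
  congr 1
  ext p
  simp only [Set.mem_ofPred_eq, coe_filter, mem_range, Nat.lt_ceil]
  tauto

/-- the difference of the numbers of split and non-split primes is nearly the character sum -/
lemma abs_bound {d : ℤ} (hd : NegFund d) (X : ℝ) (hX : |(d : ℝ)| ≤ X) (A b : ℝ) :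
    |2 * (nsplit A b d : ℝ) - nall A b d| ≤
      |∑ p ∈ opr ⌈bd A b d⌉₊, ((jacobiSym (-(mm d : ℤ)) p : ℤ) : ℝ)| + 2 * Real.log X + 2 := by
  classical
  obtain ⟨_, hm1, hm2, _, _⟩ := mm_spec hd
  set t := ⌈bd A b d⌉₊ with ht
  set v : ℕ → ℝ := fun p => ((jacobiSym (-(mm d : ℤ)) p : ℤ) : ℝ) with hv
  have hv3 : ∀ p, v p = 1 ∨ v p = -1 ∨ v p = 0 := fun p => jac_val _ p
  set a := ((opr t).filter (fun p => v p = 1)).card with ha
  set r := ((opr t).filter (fun p => v p = 0)).card with hr
  -- ramified primes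
  have hrle : (r : ℝ) ≤ 2 * Real.log X := by
    have hmX : ((mm d : ℕ) : ℝ) ≤ X := by
      have h1 : ((mm d : ℕ) : ℝ) ≤ (d.natAbs : ℝ) := by exact_mod_cast hm2
      rw [Nat.cast_natAbs] at h1
      push_cast at h1
      linarith
    exact ramified_le t (mm d) hm1 X hmX
  -- the sum
  have hsum : 2 * (a : ℝ) - (opr t).card = ∑ p ∈ opr t, v p - r := by
    rw [ha, hr, Finset.card_filter, Finset.card_filter]
    push_cast
    rw [Finset.mul_sum]
    have e1 : ((opr t).card : ℝ) = ∑ p ∈ opr t, (1 : ℝ) := by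
      rw [Finset.sum_const, nsmul_eq_mul, mul_one]
    rw [e1, ← Finset.sum_sub_distrib, ← Finset.sum_sub_distrib]
    apply Finset.sum_congr rfl
    intro p _
    rcases hv3 p with h | h | h <;> rw [h] <;> norm_num
  -- the split primes
  have hsplit : nsplit A b d = ((range t).filter (fun p => p.Prime ∧ Splits p d)).card := by
    unfold nsplit
    rw [← Set.ncard_coe_finset]
    congr 1
    ext p
    simp only [Set.mem_ofPred_eq, coe_filter, mem_range, ht, Nat.lt_ceil]
    tauto
  have key : ∀ p, p.Prime → p ≠ 2 → (Splits p d ↔ v p = 1) := by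
    intro p hp hp2
    rw [splits_iff hd hp hp2, jac_disc hd hp hp2, hv]
    simp only
    constructor
    · intro h; rw [h]; norm_num
    · intro h; exact_mod_cast h
  have h1 : a ≤ nsplit A b d := by
    rw [hsplit, ha]
    apply card_le_card
    intro p hp
    unfold opr at hp
    rw [mem_filter, mem_filter] at hp
    rw [mem_filter]
    exact ⟨hp.1.1, hp.1.2.1, (key p hp.1.2.1 hp.1.2.2).2 hp.2⟩
  have h2 : nsplit A b d ≤ a + 1 := by
    rw [hsplit, ha]
    have : (range t).filter (fun p => p.Prime ∧ Splits p d) ⊆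
        insert 2 ((opr t).filter (fun p => v p = 1)) := by
      intro p hp
      rw [mem_filter] at hp
      rw [mem_insert]
      unfold opr
      rw [mem_filter, mem_filter]
      by_cases h : p = 2
      · left; exact h
      · right; exact ⟨⟨hp.1, hp.2.1, h⟩, (key p hp.2.1 h).1 hp.2.2⟩
    exact (card_le_card this).trans (card_insert_le _ _)
  have h3 : (a : ℝ) ≤ nsplit A b d := by exact_mod_cast h1
  have h4 : (nsplit A b d : ℝ) ≤ a + 1 := by exact_mod_cast h2
  have h5 : ((opr t).card : ℝ) ≤ nall A b d := by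
    rw [nall_eq]; exact_mod_cast opr_card_le t
  have h6 : (nall A b d : ℝ) ≤ (opr t).card + 1 := by
    rw [nall_eq]; exact_mod_cast pr0_le t
  have h7 : (0 : ℝ) ≤ (r : ℝ) := Nat.cast_nonneg r
  have h8 := neg_abs_le (∑ p ∈ opr t, v p)
  have h9 := le_abs_self (∑ p ∈ opr t, v p)
  rw [abs_le]
  constructor <;> linarith

/-- the discriminants up to `X` with a biased splitting of small primes -/
def bad (A b δ X : ℝ) : Set ℤ :=
  {d : ℤ | NegFund d ∧ |(d : ℝ)| ≤ X ∧
    δ * (nall A b d : ℝ) ≤ |(nsplit A b d : ℝ) - (nall A b d : ℝ) / 2|}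

lemma bad_fin (A b δ X : ℝ) : (bad A b δ X).ncard ≤ 2 * ⌊X⌋₊ + 1 := by
  have h : bad A b δ X ⊆ ((Icc (-(⌊X⌋₊ : ℤ)) (⌊X⌋₊ : ℤ) : Finset ℤ) : Set ℤ) := by
    intro d hd
    obtain ⟨_, h2, _⟩ := hd
    rw [coe_Icc, Set.mem_Icc]
    have hX0 : 0 ≤ X := (abs_nonneg _).trans h2
    have h3 : d.natAbs ≤ ⌊X⌋₊ := by
      apply Nat.le_floor
      rw [Nat.cast_natAbs]
      push_cast
      exact h2
    omega
  refine (Set.ncard_le_ncard h (Finset.finite_toSet _)).trans ?_
  rw [Set.ncard_coe_finset, Int.card_Icc]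
  omega

/-- the exceptional squarefree numbers for one bound `t` -/
noncomputable def ex (δ : ℝ) (M t : ℕ) : Finset ℕ :=
  (sqf M).filter (fun m => δ * (pr0 t : ℝ) ≤
    |∑ p ∈ opr t, ((jacobiSym (-(m : ℤ)) p : ℤ) : ℝ)|)

theorem main_large (A b ε δ : ℝ) (hA : 1 < A) (hb : 0 ≤ b) (hε : 0 < ε) (hδ : 0 < δ) :
    ∃ C : ℝ, 0 < C ∧ ∀ᶠ L : ℝ in atTop,
      ((bad A b δ (Real.exp L)).ncard : ℝ) ≤ C * Real.exp (L * (1 / A + ε)) := by
  classical
  set η : ℝ := min (ε / 12) ((A - 1) / 4) with hη
  have hη0 : 0 < η := by rw [hη]; apply lt_min <;> linarith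
  have hη1 : η ≤ ε / 12 := min_le_left _ _
  have hη2 : η ≤ (A - 1) / 4 := min_le_right _ _
  obtain ⟨C, hC, hmain⟩ := main_count A η δ (ε / 8) hA hη0 (by linarith) hδ (by linarith)
  set g := A - 1 - 2 * η with hg
  have hg0 : 0 < g := by linarith
  refine ⟨C + 2, by positivity, ?_⟩
  -- `L^A (log L)^b + 1 ≤ L^(A+η)`
  have E2 : ∀ᶠ L : ℝ in atTop, L ^ A * Real.log L ^ b + 1 ≤ L ^ (A + η) := by
    filter_upwards [(isLittleO_log_rpow_rpow_atTop b hη0).bound (show (0 : ℝ) < 1 / 2 by norm_num),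
      eventually_ge_atTop (1 : ℝ), rpow_ev (A + η) 2 (by linarith)] with L h1 h2 h3
    rw [Real.norm_eq_abs, Real.norm_eq_abs, abs_of_nonneg (Real.rpow_nonneg (Real.log_nonneg h2) _),
      abs_of_nonneg (by positivity)] at h1
    have e1 : L ^ (A + η) = L ^ A * L ^ η := Real.rpow_add (by linarith) _ _
    have e2 : L ^ A * Real.log L ^ b ≤ L ^ A * (1 / 2 * L ^ η) := by
      apply mul_le_mul_of_nonneg_left h1 (by positivity)
    have e3 : L ^ A * (1 / 2 * L ^ η) = (1 / 2) * L ^ (A + η) := by rw [e1]; ring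
    linarith
  have E5 : ∀ᶠ L : ℝ in atTop, 2 * L + 2 ≤ δ * L ^ (A - η) := by
    filter_upwards [eventually_ge_atTop (1 : ℝ), rpow_ev (A - η - 1) (4 / δ) (by linarith)] with L h1 h2
    have e1 : L ^ (A - η) = L ^ (A - η - 1) * L := by
      rw [← Real.rpow_add_one (by linarith)]
      congr 1
      ring
    rw [e1]
    rw [div_le_iff₀ hδ] at h2
    nlinarith
  have E7 : ∀ᶠ L : ℝ in atTop, (L ^ (A + η) + 2) * L ^ g ≤ Real.exp (L * (ε / 2)) := by
    have h0 := (isLittleO_rpow_exp_pos_mul_atTop (A + η + g) (show 0 < ε / 2 by linarith)).bound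
      (show (0 : ℝ) < 1 / 3 by norm_num)
    filter_upwards [h0, eventually_ge_atTop (1 : ℝ)] with L h1 h2
    rw [Real.norm_eq_abs, Real.norm_eq_abs, abs_of_nonneg (by positivity),
      abs_of_nonneg (by positivity)] at h1
    have e1 : 1 ≤ L ^ (A + η) := Real.one_le_rpow h2 (by linarith)
    calc (L ^ (A + η) + 2) * L ^ g ≤ (3 * L ^ (A + η)) * L ^ g := by
          gcongr; linarith
      _ = 3 * L ^ (A + η + g) := by
          rw [Real.rpow_add (by linarith) (A + η) g]; ring
      _ ≤ _ := by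
          rw [mul_comm L (ε / 2)]
          linarith
  filter_upwards [hmain, E2, E5, E7, log_tendsto_div A (by linarith) 1,
    pr0_pow A η hA hη0 (by linarith), eventually_ge_atTop (1 : ℝ)]
    with L h1 h2 h5 h7 h8 h9 hL1
  set X := Real.exp L with hX
  have hX0 : 0 < X := Real.exp_pos L
  set M := ⌊X⌋₊ with hM
  set T := ⌊L ^ (A + η)⌋₊ with hT
  set Y := ⌊Real.exp (L / A)⌋₊ with hY
  set tt : Finset ℕ := (range (T + 1)).filter (fun t : ℕ => (L / A) ^ A ≤ (t : ℝ)) with htt
  set U : Finset ℕ := tt.biUnion (fun t => ex δ M t) with hU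
  set V : Finset ℤ := Icc (-(Y : ℤ)) 0 ∪ U.image dd with hV
  have hLA0 : 0 < L / A := by positivity
  -- the inclusion
  have hsub : bad A b δ X ⊆ (V : Set ℤ) := by
    intro d hd
    obtain ⟨hd1, hd2, hd3⟩ := hd
    rw [mem_coe, hV, mem_union]
    by_cases hY2 : |(d : ℝ)| ≤ Real.exp (L / A)
    · left
      rw [mem_Icc]
      have h3 : d.natAbs ≤ Y := by
        apply Nat.le_floor
        rw [Nat.cast_natAbs]
        push_cast
        exact hY2
      have := hd1.1
      omega
    · right
      rw [not_le] at hY2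
      obtain ⟨hs1, hs2, hs3, hs4, _⟩ := mm_spec hd1
      rw [mem_image]
      refine ⟨mm d, ?_, hs4⟩
      rw [hU, mem_biUnion]
      have hdpos : 0 < |(d : ℝ)| := lt_trans (Real.exp_pos _) hY2
      have hl1 : L / A ≤ Real.log |(d : ℝ)| := by
        rw [← Real.log_exp (L / A)]
        exact Real.log_le_log (Real.exp_pos _) hY2.le
      have hl2 : Real.log |(d : ℝ)| ≤ L := by
        rw [← Real.log_exp L]
        exact Real.log_le_log hdpos hd2
      have hll1 : 1 ≤ Real.log (Real.log |(d : ℝ)|) :=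
        h8.trans (Real.log_le_log hLA0 hl1)
      have hll2 : Real.log (Real.log |(d : ℝ)|) ≤ Real.log L :=
        Real.log_le_log (lt_of_lt_of_le hLA0 hl1) hl2
      have hlb : (L / A) ^ A ≤ bd A b d := by
        unfold bd
        calc (L / A) ^ A = (L / A) ^ A * 1 := by ring
          _ ≤ Real.log |(d : ℝ)| ^ A * Real.log (Real.log |(d : ℝ)|) ^ b := by
            apply mul_le_mul _ (Real.one_le_rpow hll1 hb) (by norm_num)
              (Real.rpow_nonneg (hLA0.le.trans hl1) _)
            exact Real.rpow_le_rpow hLA0.le hl1 (by linarith)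
      have hub : bd A b d ≤ L ^ A * Real.log L ^ b := by
        unfold bd
        apply mul_le_mul _ _ (Real.rpow_nonneg (by linarith) _) (by positivity)
        · exact Real.rpow_le_rpow (hLA0.le.trans hl1) hl2 (by linarith)
        · exact Real.rpow_le_rpow (by linarith) hll2 hb
      have hbd0 : 0 ≤ bd A b d := le_trans (by positivity) hlb
      have ht1 : (L / A) ^ A ≤ (⌈bd A b d⌉₊ : ℝ) := hlb.trans (Nat.le_ceil _)
      have ht2 : (⌈bd A b d⌉₊ : ℝ) ≤ L ^ (A + η) := by
        have := (Nat.ceil_lt_add_one hbd0).le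
        linarith
      refine ⟨⌈bd A b d⌉₊, ?_, ?_⟩
      · rw [htt, mem_filter, mem_range]
        exact ⟨Nat.lt_succ_of_le (Nat.le_floor ht2), ht1⟩
      · unfold ex
        rw [mem_filter]
        constructor
        · unfold sqf
          rw [mem_filter, mem_Icc]
          refine ⟨⟨hs2, ?_⟩, hs1⟩
          apply Nat.le_floor
          have e1 : ((mm d : ℕ) : ℝ) ≤ (d.natAbs : ℝ) := by exact_mod_cast hs3
          rw [Nat.cast_natAbs] at e1
          push_cast at e1
          exact e1.trans hd2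
        · have e1 := abs_bound hd1 X hd2 A b
          have e2 : |2 * (nsplit A b d : ℝ) - nall A b d| =
              2 * |(nsplit A b d : ℝ) - (nall A b d : ℝ) / 2| := by
            rw [← abs_two, ← abs_mul, abs_two]
            congr 1
            ring
          have e3 := h9 _ ht1
          rw [← nall_eq]
          rw [← nall_eq] at e3
          have e4 : δ * L ^ (A - η) ≤ δ * (nall A b d : ℝ) :=
            mul_le_mul_of_nonneg_left e3 hδ.le
          rw [hX, Real.log_exp] at e1
          linarith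
  -- the count
  have hcard : ∀ t ∈ tt, ((ex δ M t).card : ℝ) ≤
      C * Real.exp (L * (1 + 2 * (ε / 8) - g / (A + η))) * L ^ g := by
    intro t ht
    rw [htt, mem_filter, mem_range] at ht
    have ht2 : (t : ℝ) ≤ L ^ (A + η) := by
      have : t ≤ T := by omega
      exact le_trans (by exact_mod_cast this) (Nat.floor_le (by positivity))
    apply h1 t ht.2 ht2 (ex δ M t)
    · unfold ex; exact filter_subset _ _
    · intro m hm
      exact (mem_filter.1 hm).2
  have hUc : (U.card : ℝ) ≤ (L ^ (A + η) + 1) *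
      (C * Real.exp (L * (1 + 2 * (ε / 8) - g / (A + η))) * L ^ g) := by
    calc (U.card : ℝ) ≤ ∑ t ∈ tt, ((ex δ M t).card : ℝ) := by
          exact_mod_cast Finset.card_biUnion_le
      _ ≤ ∑ t ∈ tt, C * Real.exp (L * (1 + 2 * (ε / 8) - g / (A + η))) * L ^ g :=
          Finset.sum_le_sum hcard
      _ = (tt.card : ℝ) * (C * Real.exp (L * (1 + 2 * (ε / 8) - g / (A + η))) * L ^ g) := by
          rw [Finset.sum_const, nsmul_eq_mul]
      _ ≤ _ := by
          have e1 : tt.card ≤ T + 1 := (card_filter_le _ _).trans (by rw [card_range])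
          have e2 : (tt.card : ℝ) ≤ T + 1 := by exact_mod_cast e1
          have e3 : (T : ℝ) ≤ L ^ (A + η) := Nat.floor_le (by positivity)
          gcongr
          linarith
  have hVc : (V.card : ℝ) ≤ Real.exp (L / A) + 1 + U.card := by
    have e1 : V.card ≤ (Y + 1) + U.card := by
      rw [hV]
      refine (card_union_le _ _).trans (add_le_add ?_ card_image_le)
      rw [Int.card_Icc]
      omega
    have e2 : (Y : ℝ) ≤ Real.exp (L / A) := Nat.floor_le (by positivity)
    have e3 : (V.card : ℝ) ≤ (Y + 1) + U.card := by exact_mod_cast e1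
    linarith
  have hfin : ((bad A b δ X).ncard : ℝ) ≤ V.card := by
    have := Set.ncard_le_ncard hsub (Finset.finite_toSet _)
    rw [Set.ncard_coe_finset] at this
    exact_mod_cast this
  refine hfin.trans (hVc.trans ?_)
  have hx1 : Real.exp (L / A) + 1 ≤ 2 * Real.exp (L * (1 / A + ε)) := by
    have e1 : Real.exp (L / A) ≤ Real.exp (L * (1 / A + ε)) := by
      apply Real.exp_le_exp.2
      have : L * (1 / A + ε) = L / A + L * ε := by ring
      rw [this]
      nlinarith
    have e2 : 1 ≤ Real.exp (L * (1 / A + ε)) := Real.one_le_exp (by positivity)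
    linarith
  have hx2 : (U.card : ℝ) ≤ C * Real.exp (L * (1 / A + ε)) := by
    calc (U.card : ℝ) ≤ (L ^ (A + η) + 1) *
          (C * Real.exp (L * (1 + 2 * (ε / 8) - g / (A + η))) * L ^ g) := hUc
      _ = C * Real.exp (L * (1 + 2 * (ε / 8) - g / (A + η))) * ((L ^ (A + η) + 1) * L ^ g) := by ring
      _ ≤ C * Real.exp (L * (1 + 2 * (ε / 8) - g / (A + η))) * Real.exp (L * (ε / 2)) := by
          have e0 : 0 ≤ L ^ g := by positivity
          have : (L ^ (A + η) + 1) * L ^ g ≤ Real.exp (L * (ε / 2)) := by nlinarith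
          gcongr
      _ = C * Real.exp (L * (1 + 2 * (ε / 8) - g / (A + η) + ε / 2)) := by
          rw [mul_assoc, ← Real.exp_add]
          congr 2
          ring
      _ ≤ _ := by
          apply mul_le_mul_of_nonneg_left _ hC.le
          apply Real.exp_le_exp.2
          apply mul_le_mul_of_nonneg_left _ (by linarith)
          have e1 : 1 - g / (A + η) ≤ 1 / A + 3 * η := by
            have f1 : 1 - g / (A + η) = (1 + 3 * η) / (A + η) := by
              have : A + η ≠ 0 := by positivity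
              field_simp
              rw [hg]
              ring
            rw [f1]
            have f2 : (1 + 3 * η) / (A + η) ≤ (1 + 3 * η) / A := by
              apply div_le_div_of_nonneg_left (by positivity) (by linarith) (by linarith)
            have f3 : (1 + 3 * η) / A ≤ 1 / A + 3 * η := by
              rw [add_div]
              have : 3 * η / A ≤ 3 * η := div_le_self (by positivity) hA.le
              linarith
            linarith
          linarith
  linarith

theorem main (A b ε δ : ℝ) (hA : 1 < A) (hb : 0 ≤ b) (hε : 0 < ε) (hδ : 0 < δ) :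
    ∃ C : ℝ, ∀ X : ℝ, 1 ≤ X → ((bad A b δ X).ncard : ℝ) ≤ C * X ^ (1 / A + ε) := by
  obtain ⟨C, hC, h⟩ := main_large A b ε δ hA hb hε hδ
  obtain ⟨L0, hL0⟩ := eventually_atTop.1 h
  refine ⟨C + 2 * Real.exp L0 + 1, fun X hX => ?_⟩
  have hX0 : 0 < X := by linarith
  have hXe : 1 ≤ X ^ (1 / A + ε) := Real.one_le_rpow hX (by positivity)
  have hpos : 0 < Real.exp L0 := Real.exp_pos _
  by_cases hc : L0 ≤ Real.log X
  · have h1 := hL0 _ hc
    rw [Real.exp_log hX0] at h1
    rw [← Real.rpow_def_of_pos hX0] at h1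
    refine h1.trans ?_
    gcongr
    linarith
  · rw [not_le] at hc
    have h1 : X ≤ Real.exp L0 := by
      rw [← Real.exp_log hX0]
      exact Real.exp_le_exp.2 hc.le
    have h2 : ((bad A b δ X).ncard : ℝ) ≤ 2 * (⌊X⌋₊ : ℝ) + 1 := by exact_mod_cast bad_fin A b δ X
    have h3 : (⌊X⌋₊ : ℝ) ≤ X := Nat.floor_le hX0.le
    calc ((bad A b δ X).ncard : ℝ) ≤ (C + 2 * Real.exp L0 + 1) * 1 := by linarith
      _ ≤ _ := by gcongr

end Pool.Agent.TH988.SP
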