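import Mathlib

set_option autoImplicit false

/-!
# Elementary symmetric functions of signs

If `v p ∈ {-1, 0, 1}` for `p ∈ P` and `|∑ v p| ≥ D` with `4 k |P| ≤ D²` then the `k`-th elementary
symmetric function of the `v p` has absolute value at least `(D/2)^k / k!`.
-/

namespace Pool.Agent.TH988.SP

open Finset Polynomial

/-- the generating function of `a` signs `+` and `b` signs `-` -/
noncomputable def gf (a b : ℕ) : ℝ[X] := (1 + X) ^ a * (1 - X) ^ b

lemma gf_diff (a b : ℕ) :
    (1 - X ^ 2) * derivative (gf a b) =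
      (C ((a : ℝ) - b) - C ((a : ℝ) + b) * X) * gf a b := by
  unfold gf
  rw [derivative_mul, derivative_pow, derivative_pow]
  simp only [derivative_add, derivative_sub, derivative_one, derivative_X, zero_add, zero_sub]
  have h1 : ((1 : ℝ[X]) + X) * (C (a : ℝ) * (1 + X) ^ (a - 1)) = C (a : ℝ) * (1 + X) ^ a := by
    rcases Nat.eq_zero_or_pos a with h | h
    · subst h; simp
    · obtain ⟨c, rfl⟩ := Nat.exists_eq_add_of_le h
      rw [show 1 + c - 1 = c by omega, show 1 + c = c + 1 by omega, pow_succ]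
      ring
  have h2 : ((1 : ℝ[X]) - X) * (C (b : ℝ) * (1 - X) ^ (b - 1)) = C (b : ℝ) * (1 - X) ^ b := by
    rcases Nat.eq_zero_or_pos b with h | h
    · subst h; simp
    · obtain ⟨c, rfl⟩ := Nat.exists_eq_add_of_le h
      rw [show 1 + c - 1 = c by omega, show 1 + c = c + 1 by omega, pow_succ]
      ring
  have e : ((1 : ℝ[X]) - X ^ 2) * (C (a : ℝ) * (1 + X) ^ (a - 1) * 1 * (1 - X) ^ b +
      (1 + X) ^ a * (C (b : ℝ) * (1 - X) ^ (b - 1) * -1)) =
      (1 - X) * (((1 : ℝ[X]) + X) * (C (a : ℝ) * (1 + X) ^ (a - 1))) * (1 - X) ^ b -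
      (1 + X) * (((1 : ℝ[X]) - X) * (C (b : ℝ) * (1 - X) ^ (b - 1))) * (1 + X) ^ a := by ring
  rw [e, h1, h2, C_sub, C_add]
  ring

lemma gf_rec (a b k : ℕ) :
    ((k : ℝ) + 2) * (gf a b).coeff (k + 2) =
      ((a : ℝ) - b) * (gf a b).coeff (k + 1) - ((a : ℝ) + b - k) * (gf a b).coeff k := by
  have h := congrArg (fun f : ℝ[X] => f.coeff (k + 1)) (gf_diff a b)
  have e1 : ((1 : ℝ[X]) - X ^ 2) * derivative (gf a b) =
      derivative (gf a b) - derivative (gf a b) * X ^ 2 := by ring
  have e2 : (C ((a : ℝ) - b) - C ((a : ℝ) + b) * X) * gf a b =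
      C ((a : ℝ) - b) * gf a b - C ((a : ℝ) + b) * (gf a b * X) := by ring
  rw [e1, e2, coeff_sub, coeff_sub, coeff_C_mul, coeff_C_mul, coeff_mul_X, coeff_derivative] at h
  have e3 : (derivative (gf a b) * X ^ 2).coeff (k + 1) = (k : ℝ) * (gf a b).coeff k := by
    rcases Nat.eq_zero_or_pos k with hk | hk
    · subst hk
      rw [coeff_mul_X_pow']
      simp
    · obtain ⟨c, rfl⟩ := Nat.exists_eq_add_of_le hk
      rw [show 1 + c + 1 = c + 2 by omega, coeff_mul_X_pow, coeff_derivative,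
        show c + 1 = 1 + c by omega]
      push_cast
      ring
  rw [e3] at h
  push_cast at h
  linarith

lemma gf_zero (a b : ℕ) : (gf a b).coeff 0 = 1 := by
  unfold gf
  rw [coeff_zero_eq_eval_zero]
  simp

lemma gf_one (a b : ℕ) : (gf a b).coeff 1 = (a : ℝ) - b := by
  have h := congrArg (fun f : ℝ[X] => f.coeff 0) (gf_diff a b)
  have e1 : ((1 : ℝ[X]) - X ^ 2) * derivative (gf a b) =
      derivative (gf a b) - derivative (gf a b) * X ^ 2 := by ring
  have e2 : (C ((a : ℝ) - b) - C ((a : ℝ) + b) * X) * gf a b =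
      C ((a : ℝ) - b) * gf a b - C ((a : ℝ) + b) * (gf a b * X) := by ring
  rw [e1, e2, coeff_sub, coeff_sub, coeff_C_mul, coeff_C_mul, coeff_derivative, gf_zero,
    coeff_mul_X_pow'] at h
  simp at h
  linarith

/-- the lower bound for the coefficients -/
lemma gf_lower (a b : ℕ) (D : ℝ) (hD : 0 < D) (hab : (a : ℝ) - b = D) (K : ℕ)
    (hK : 4 * (K : ℝ) * ((a : ℝ) + b) ≤ D ^ 2) :
    ∀ k : ℕ, k + 1 ≤ K → 0 < (gf a b).coeff k ∧
      D / (2 * ((k : ℝ) + 1)) * (gf a b).coeff k ≤ (gf a b).coeff (k + 1) := by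
  intro k
  induction k with
  | zero =>
    intro _
    refine ⟨by rw [gf_zero]; norm_num, ?_⟩
    rw [gf_zero, zero_add, gf_one, hab]
    norm_num
    linarith
  | succ k ih =>
    intro hk
    obtain ⟨h0, h1⟩ := ih (by omega)
    have hk0 : (0 : ℝ) < (k : ℝ) + 1 := by positivity
    have hpos : 0 < (gf a b).coeff (k + 1) :=
      lt_of_lt_of_le (by positivity) h1
    refine ⟨hpos, ?_⟩
    have hrec := gf_rec a b k
    -- f_k ≤ (2(k+1)/D) f_{k+1}
    have h2 : (gf a b).coeff k ≤ 2 * ((k : ℝ) + 1) / D * (gf a b).coeff (k + 1) := by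
      rw [div_mul_eq_mul_div, le_div_iff₀ hD]
      rw [div_mul_eq_mul_div, div_le_iff₀ (by positivity)] at h1
      nlinarith
    have hn : (0 : ℝ) ≤ (a : ℝ) + b := by positivity
    have h3 : ((a : ℝ) + b - k) * (gf a b).coeff k ≤
        ((a : ℝ) + b) * (2 * ((k : ℝ) + 1) / D * (gf a b).coeff (k + 1)) := by
      have : ((a : ℝ) + b - k) * (gf a b).coeff k ≤ ((a : ℝ) + b) * (gf a b).coeff k := by
        apply mul_le_mul_of_nonneg_right _ h0.le
        have : (0 : ℝ) ≤ k := by positivity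
        linarith
      exact this.trans (mul_le_mul_of_nonneg_left h2 hn)
    have h4 : ((a : ℝ) + b) * (2 * ((k : ℝ) + 1) / D) ≤ D / 2 := by
      rw [mul_div_assoc', div_le_iff₀ hD]
      have hkK : (k : ℝ) + 1 ≤ K := by
        have : k + 1 ≤ K := by omega
        exact_mod_cast this
      nlinarith
    have h5 : ((k : ℝ) + 2) * (gf a b).coeff (k + 2) ≥ D / 2 * (gf a b).coeff (k + 1) := by
      rw [hrec, hab]
      nlinarith
    rw [show k + 1 + 1 = k + 2 by omega, div_mul_eq_mul_div, div_le_iff₀ (by positivity)]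
    push_cast
    nlinarith

lemma gf_ge (a b : ℕ) (D : ℝ) (hD : 0 < D) (hab : (a : ℝ) - b = D) (K : ℕ)
    (hK : 4 * (K : ℝ) * ((a : ℝ) + b) ≤ D ^ 2) :
    (D / 2) ^ K / (K.factorial : ℝ) ≤ (gf a b).coeff K := by
  have h := gf_lower a b D hD hab K hK
  have key : ∀ k : ℕ, k ≤ K → (D / 2) ^ k / (k.factorial : ℝ) ≤ (gf a b).coeff k := by
    intro k
    induction k with
    | zero => intro _; rw [gf_zero]; simp
    | succ k ih =>
      intro hk
      obtain ⟨h0, h1⟩ := h k hk
      refine le_trans ?_ h1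
      have h2 := ih (by omega)
      have e : (D / 2) ^ (k + 1) / ((k + 1).factorial : ℝ) =
          D / (2 * ((k : ℝ) + 1)) * ((D / 2) ^ k / (k.factorial : ℝ)) := by
        rw [Nat.factorial_succ]
        push_cast
        field_simp
        ring
      rw [e]
      exact mul_le_mul_of_nonneg_left h2 (by positivity)
  exact key K le_rfl

/-- elementary symmetric function over subsets of size `k` -/
noncomputable def esum (P : Finset ℕ) (v : ℕ → ℝ) (k : ℕ) : ℝ :=
  ∑ s ∈ P.powersetCard k, ∏ p ∈ s, v p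

lemma coeff_prod (P : Finset ℕ) (v : ℕ → ℝ) (k : ℕ) :
    (∏ p ∈ P, (1 + C (v p) * X : ℝ[X])).coeff k = esum P v k := by
  rw [Finset.prod_one_add]
  rw [Polynomial.finsetSum_coeff]
  unfold esum
  rw [Finset.powersetCard_eq_filter, Finset.sum_filter]
  apply Finset.sum_congr rfl
  intro s _
  rw [Finset.prod_mul_distrib, Finset.prod_const, ← map_prod, coeff_C_mul, coeff_X_pow]
  by_cases h : s.card = k
  · rw [if_pos h, if_pos h.symm, mul_one]
  · rw [if_neg h, if_neg (Ne.symm h), mul_zero]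

lemma prod_signs (P : Finset ℕ) (v : ℕ → ℝ) (hv : ∀ p ∈ P, v p = 1 ∨ v p = -1 ∨ v p = 0) :
    (∏ p ∈ P, (1 + C (v p) * X : ℝ[X])) =
      gf (P.filter (fun p => v p = 1)).card (P.filter (fun p => v p = -1)).card := by
  unfold gf
  rw [← Finset.prod_const, ← Finset.prod_const, Finset.prod_filter, Finset.prod_filter,
    ← Finset.prod_mul_distrib]
  apply Finset.prod_congr rfl
  intro p hp
  rcases hv p hp with h | h | h
  · rw [h]; norm_num
  · rw [h]; norm_num; ring
  · rw [h]; norm_num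

lemma sum_signs (P : Finset ℕ) (v : ℕ → ℝ) (hv : ∀ p ∈ P, v p = 1 ∨ v p = -1 ∨ v p = 0) :
    ∑ p ∈ P, v p =
      ((P.filter (fun p => v p = 1)).card : ℝ) - ((P.filter (fun p => v p = -1)).card : ℝ) := by
  rw [Finset.card_filter, Finset.card_filter]
  push_cast
  rw [← Finset.sum_sub_distrib]
  apply Finset.sum_congr rfl
  intro p hp
  rcases hv p hp with h | h | h
  · rw [h]; norm_num
  · rw [h]; norm_num
  · rw [h]; norm_num

lemma card_signs (P : Finset ℕ) (v : ℕ → ℝ) :
    ((P.filter (fun p => v p = 1)).card : ℝ) + ((P.filter (fun p => v p = -1)).card : ℝ) ≤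
      P.card := by
  have h : Disjoint (P.filter (fun p => v p = 1)) (P.filter (fun p => v p = -1)) := by
    rw [Finset.disjoint_filter]
    intro p _ h1 h2
    rw [h1] at h2
    norm_num at h2
  have := Finset.card_union_of_disjoint h
  have h2 : (P.filter (fun p => v p = 1) ∪ P.filter (fun p => v p = -1)).card ≤ P.card := by
    apply Finset.card_le_card
    intro p hp
    simp only [Finset.mem_union, Finset.mem_filter] at hp
    tauto
  rw [this] at h2
  exact_mod_cast h2

/-- **Lower bound for the elementary symmetric function.** -/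
theorem esum_ge (P : Finset ℕ) (v : ℕ → ℝ) (hv : ∀ p ∈ P, v p = 1 ∨ v p = -1 ∨ v p = 0)
    (D : ℝ) (hD : 0 < D) (hs : D ≤ |∑ p ∈ P, v p|) (K : ℕ)
    (hK : 4 * (K : ℝ) * (P.card : ℝ) ≤ D ^ 2) :
    (D / 2) ^ K / (K.factorial : ℝ) ≤ |esum P v K| := by
  -- first the case of a positive sum
  have pos : ∀ w : ℕ → ℝ, (∀ p ∈ P, w p = 1 ∨ w p = -1 ∨ w p = 0) → D ≤ ∑ p ∈ P, w p →
      (D / 2) ^ K / (K.factorial : ℝ) ≤ esum P w K := by
    intro w hw hsw
    rw [← coeff_prod, prod_signs P w hw]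
    set a := (P.filter (fun p => w p = 1)).card
    set b := (P.filter (fun p => w p = -1)).card
    have hsum := sum_signs P w hw
    have hcard := card_signs P w
    have hS : D ≤ (a : ℝ) - b := by rw [← hsum]; exact hsw
    have h1 : 4 * (K : ℝ) * ((a : ℝ) + b) ≤ ((a : ℝ) - b) ^ 2 := by
      calc 4 * (K : ℝ) * ((a : ℝ) + b) ≤ 4 * (K : ℝ) * P.card := by
            apply mul_le_mul_of_nonneg_left hcard (by positivity)
        _ ≤ D ^ 2 := hK
        _ ≤ ((a : ℝ) - b) ^ 2 := by gcongr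
    have h2 := gf_ge a b ((a : ℝ) - b) (by linarith) rfl K h1
    refine le_trans ?_ h2
    gcongr
  rcases le_total 0 (∑ p ∈ P, v p) with h | h
  · rw [abs_of_nonneg h] at hs
    exact (pos v hv hs).trans (le_abs_self _)
  · rw [abs_of_nonpos h] at hs
    have h1 := pos (fun p => - v p) (by
      intro p hp
      rcases hv p hp with h | h | h
      · right; left; simp [h]
      · left; simp [h]
      · right; right; simp [h]) (by rw [Finset.sum_neg_distrib]; exact hs)
    refine h1.trans ?_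
    have e : esum P (fun p => - v p) K = (-1) ^ K * esum P v K := by
      unfold esum
      rw [Finset.mul_sum]
      apply Finset.sum_congr rfl
      intro s hs
      rw [Finset.prod_neg, (Finset.mem_powersetCard.1 hs).2]
    rw [e]
    calc (-1) ^ K * esum P v K ≤ |(-1) ^ K * esum P v K| := le_abs_self _
      _ = |esum P v K| := by rw [abs_mul, abs_pow]; simp

end Pool.Agent.TH988.SP
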